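import Pool.Agent.TH387.EI.Defs
set_option autoImplicit false
open scoped ComplexOrder InnerProductSpace
noncomputable section

namespace Pool.Agent.TH276.EI4c

open Pool.Agent.TH387.EI

universe u

variable {A : Type u} [NonUnitalCStarAlgebra A]
  {H : Type u} [NormedAddCommGroup H] [InnerProductSpace ℂ H] [CompleteSpace H]

lemma inner_star (ρ : A →⋆ₙₐ[ℂ] (H →L[ℂ] H)) (a : A) (x y : H) :
    ⟪ρ (star a) x, y⟫_ℂ = ⟪x, ρ a y⟫_ℂ := by
  rw [map_star, ContinuousLinearMap.star_eq_adjoint, ContinuousLinearMap.adjoint_inner_left]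

/-- The linear map `a ↦ ρ a w`. -/
def orb (ρ : A →⋆ₙₐ[ℂ] (H →L[ℂ] H)) (w : H) : A →ₗ[ℂ] H where
  toFun a := ρ a w
  map_add' x y := by simp
  map_smul' c x := by simp

/-- The closed cyclic subspace. -/
def Mc (ρ : A →⋆ₙₐ[ℂ] (H →L[ℂ] H)) (w : H) : Submodule ℂ H :=
  (LinearMap.range (orb ρ w)).topologicalClosure

lemma orb_mem (ρ : A →⋆ₙₐ[ℂ] (H →L[ℂ] H)) (w : H) (a : A) : ρ a w ∈ Mc ρ w :=
  Submodule.le_topologicalClosure _ ⟨a, rfl⟩

lemma Mc_inv (ρ : A →⋆ₙₐ[ℂ] (H →L[ℂ] H)) (w : H) (a : A) (v : H) (hv : v ∈ Mc ρ w) :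
    ρ a v ∈ Mc ρ w := by
  have h : Mc ρ w ≤ (Mc ρ w).comap (ρ a : H →ₗ[ℂ] H) := by
    refine Submodule.topologicalClosure_minimal _ ?_ ?_
    · rintro _ ⟨b, rfl⟩
      change ρ a (ρ b w) ∈ Mc ρ w
      have : ρ a (ρ b w) = ρ (a * b) w := by
        rw [map_mul]; rfl
      rw [this]
      exact orb_mem ρ w _
    · exact (Submodule.isClosed_topologicalClosure _).preimage (ρ a).continuous
  exact h hv

instance (ρ : A →⋆ₙₐ[ℂ] (H →L[ℂ] H)) (w : H) : CompleteSpace (Mc ρ w) :=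
  (Submodule.isClosed_topologicalClosure _).completeSpace_coe

lemma Mc_min (ρ : A →⋆ₙₐ[ℂ] (H →L[ℂ] H)) (w : H) (S : Submodule ℂ H) (hS : IsClosed (S : Set H))
    (h : ∀ a, ρ a w ∈ S) : Mc ρ w ≤ S := by
  refine Submodule.topologicalClosure_minimal _ ?_ hS
  rintro _ ⟨b, rfl⟩
  exact h b

lemma orth_inv (ρ : A →⋆ₙₐ[ℂ] (H →L[ℂ] H)) (w : H) (a : A) (v : H) (hv : v ∈ (Mc ρ w)ᗮ) :
    ρ a v ∈ (Mc ρ w)ᗮ := by
  rw [Submodule.mem_orthogonal] at hv ⊢
  intro u hu
  rw [← inner_star]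
  exact hv _ (Mc_inv ρ w _ _ hu)

lemma w_mem (ρ : A →⋆ₙₐ[ℂ] (H →L[ℂ] H)) (hρ : Nd ρ) (w : H) : w ∈ Mc ρ w := by
  have hvo : w - (Mc ρ w).starProjection w ∈ (Mc ρ w)ᗮ :=
    Submodule.sub_starProjection_mem_orthogonal _
  have h0 : ∀ a, ρ a (w - (Mc ρ w).starProjection w) = 0 := by
    intro a
    have h1 := orth_inv ρ w a _ hvo
    have h2 : ρ a (w - (Mc ρ w).starProjection w) ∈ Mc ρ w := by
      rw [map_sub]
      exact Submodule.sub_mem _ (orb_mem ρ w a)
        (Mc_inv ρ w a _ (Submodule.starProjection_apply_mem _ _))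
    have := Submodule.inner_right_of_mem_orthogonal h2 h1
    exact inner_self_eq_zero.mp this
  have hv0 : w - (Mc ρ w).starProjection w = 0 := by
    apply hρ
    intro a u
    have := inner_star ρ (star a) u (w - (Mc ρ w).starProjection w)
    rw [star_star] at this
    rw [this, h0, inner_zero_right]
  exact Submodule.starProjection_eq_self_iff.mp (sub_eq_zero.mp hv0).symm

/-- The projection onto the cyclic subspace commutes with the representation. -/
lemma proj_comm (ρ : A →⋆ₙₐ[ℂ] (H →L[ℂ] H)) (w : H) (a : A) (v : H) :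
    (Mc ρ w).starProjection (ρ a v) = ρ a ((Mc ρ w).starProjection v) := by
  refine Submodule.eq_starProjection_of_mem_orthogonal' (z := ρ a (v - (Mc ρ w).starProjection v))
    (Mc_inv ρ w a _ (Submodule.starProjection_apply_mem _ _))
    (orth_inv ρ w a _ (Submodule.sub_starProjection_mem_orthogonal _)) ?_
  rw [map_sub]
  abel

/-- The restriction of `ρ a` to the cyclic subspace. -/
def rst (ρ : A →⋆ₙₐ[ℂ] (H →L[ℂ] H)) (w : H) (a : A) : Mc ρ w →L[ℂ] Mc ρ w :=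
  ((ρ a).comp (Mc ρ w).subtypeL).codRestrict (Mc ρ w) fun v => Mc_inv ρ w a v v.2

lemma rst_coe (ρ : A →⋆ₙₐ[ℂ] (H →L[ℂ] H)) (w : H) (a : A) (v : Mc ρ w) :
    ((rst ρ w a v : Mc ρ w) : H) = ρ a v := rfl

/-- The cyclic subrepresentation. -/
def rep (ρ : A →⋆ₙₐ[ℂ] (H →L[ℂ] H)) (w : H) : A →⋆ₙₐ[ℂ] (Mc ρ w →L[ℂ] Mc ρ w) where
  toFun := rst ρ w
  map_smul' c x := by
    ext v
    simp [rst_coe]
  map_zero' := by
    ext v
    simp [rst_coe]
  map_add' x y := by
    ext v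
    simp [rst_coe]
  map_mul' x y := by
    ext v
    simp [rst_coe]
  map_star' x := by
    rw [ContinuousLinearMap.star_eq_adjoint, ContinuousLinearMap.eq_adjoint_iff]
    intro u v
    exact inner_star ρ x u v

lemma rep_coe (ρ : A →⋆ₙₐ[ℂ] (H →L[ℂ] H)) (w : H) (a : A) (v : Mc ρ w) :
    ((rep ρ w a v : Mc ρ w) : H) = ρ a v := rfl

end Pool.Agent.TH276.EI4c

namespace Pool.Agent.TH387.EI

open Pool.Agent.TH276.EI4c

universe u

variable {A : Type u} [NonUnitalCStarAlgebra A]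
  {H : Type u} [NormedAddCommGroup H] [InnerProductSpace ℂ H] [CompleteSpace H]

theorem min_irr (hk : KapBicP.{u}) (ρ : A →⋆ₙₐ[ℂ] (H →L[ℂ] H)) (hρ : Nd ρ) (e : H →L[ℂ] H)
    (he : IsStarProjection e)
    (heb : Bic ρ e) (hmin : ∀ T : H →L[ℂ] H, Bic ρ T → ∃ c : ℂ, e * T * e = c • e)
    (w : H) (hw : e w = w) (hw1 : ‖w‖ = 1) :
    ∃ (H' : Type u) (_ : NormedAddCommGroup H') (_ : InnerProductSpace ℂ H')
      (_ : CompleteSpace H') (ρ' : A →⋆ₙₐ[ℂ] (H' →L[ℂ] H')) (ξ' : H'), Kap ρ' ∧ ‖ξ'‖ = 1 ∧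
      ∀ a : A, ⟪ξ', ρ' a ξ'⟫_ℂ = ⟪w, ρ a w⟫_ℂ := by
  have hwM := w_mem ρ hρ w
  refine ⟨Mc ρ w, inferInstance, inferInstance, inferInstance, rep ρ w, ⟨w, hwM⟩, ?_, hw1,
    fun a => rfl⟩
  have hNd : Nd (rep ρ w) := by
    intro v hv
    have h1 : ∀ a, ⟪ρ a w, (v : H)⟫_ℂ = 0 := fun a => hv a ⟨w, hwM⟩
    have h2 : Mc ρ w ≤ (ℂ ∙ (v : H))ᗮ := by
      refine Mc_min ρ w _ (Submodule.isClosed_orthogonal _) ?_
      intro a
      rw [Submodule.mem_orthogonal_singleton_iff_inner_left]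
      exact h1 a
    have h3 := h2 v.2
    rw [Submodule.mem_orthogonal_singleton_iff_inner_left] at h3
    exact Subtype.ext (inner_self_eq_zero.mp h3)
  have key : ∀ y : Mc ρ w →L[ℂ] Mc ρ w, (∀ a, y * rep ρ w a = rep ρ w a * y) →
      ∃ l : ℂ, y = l • (1 : Mc ρ w →L[ℂ] Mc ρ w) := by
    intro y hy
    set Y : H →L[ℂ] H := (Mc ρ w).subtypeL ∘L y ∘L (Mc ρ w).orthogonalProjectionOnto with hY
    have hYv : ∀ v, Y v = (y ((Mc ρ w).orthogonalProjectionOnto v) : H) := fun v => rfl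
    have hyc : ∀ a (v : Mc ρ w), y (rep ρ w a v) = rep ρ w a (y v) := by
      intro a v
      have := congrArg (fun T : Mc ρ w →L[ℂ] Mc ρ w => T v) (hy a)
      exact this
    have hYc : ∀ a, Y * ρ a = ρ a * Y := by
      intro a
      ext v
      change Y (ρ a v) = ρ a (Y v)
      rw [hYv, hYv]
      have h1 : (Mc ρ w).orthogonalProjectionOnto (ρ a v) =
          rep ρ w a ((Mc ρ w).orthogonalProjectionOnto v) := by
        apply Subtype.ext
        rw [rep_coe]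
        exact proj_comm ρ w a v
      rw [h1, hyc]
      rfl
    have hYe := heb Y hYc
    have hYw : Y w = (y ⟨w, hwM⟩ : H) := by
      rw [hYv]
      have : (Mc ρ w).orthogonalProjectionOnto w = ⟨w, hwM⟩ :=
        Submodule.orthogonalProjectionOnto_mem_subspace_eq_self (⟨w, hwM⟩ : Mc ρ w)
      rw [this]
    have hev : e (Y w) = Y w := by
      have := congrArg (fun T : H →L[ℂ] H => T w) hYe
      change Y (e w) = e (Y w) at this
      rw [← this, hw]
    have hle : Mc ρ w ≤ (ℂ ∙ w).comap (e : H →ₗ[ℂ] H) := by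
      refine Mc_min ρ w _ ?_ ?_
      · exact (Submodule.closed_of_finiteDimensional (ℂ ∙ w)).preimage e.continuous
      · intro a
        obtain ⟨c, hc⟩ := hmin (ρ a) (fun y hy => hy a)
        have := congrArg (fun T : H →L[ℂ] H => T w) hc
        change e (ρ a (e w)) = c • e w at this
        rw [hw] at this
        change e (ρ a w) ∈ (ℂ ∙ w)
        rw [this]
        exact Submodule.smul_mem _ _ (Submodule.mem_span_singleton_self w)
    have h4 : Y w ∈ (ℂ ∙ w) := by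
      rw [← hev]
      refine hle ?_
      rw [hYw]
      exact (y ⟨w, hwM⟩).2
    obtain ⟨l, hl⟩ := Submodule.mem_span_singleton.mp h4
    refine ⟨l, ?_⟩
    have hyw : y ⟨w, hwM⟩ = l • (⟨w, hwM⟩ : Mc ρ w) := by
      apply Subtype.ext
      rw [← hYw, ← hl]
      rfl
    -- the set where `Y v = l • v` is closed and contains the orbit
    have hle2 : Mc ρ w ≤ LinearMap.ker ((Y - l • (1 : H →L[ℂ] H) : H →L[ℂ] H) : H →ₗ[ℂ] H) := by
      refine Mc_min ρ w _ ?_ ?_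
      · exact (isClosed_singleton (x := (0 : H))).preimage (Y - l • (1 : H →L[ℂ] H)).continuous
      · intro a
        rw [LinearMap.mem_ker]
        change Y (ρ a w) - l • ρ a w = 0
        have h5 : Y (ρ a w) = ρ a (Y w) := by
          have := congrArg (fun T : H →L[ℂ] H => T w) (hYc a)
          exact this
        rw [h5, ← hl, map_smul, sub_self]
    ext v
    have h6 := hle2 v.2
    rw [LinearMap.mem_ker] at h6
    change Y v - l • (v : H) = 0 at h6
    have h7 : Y v = (y v : H) := by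
      rw [hYv, Submodule.orthogonalProjectionOnto_mem_subspace_eq_self]
    rw [← h7, sub_eq_zero.mp h6]
    rfl
  intro T hT hT1 F τ hτ
  refine hk A (Mc ρ w) (rep ρ w) hNd T ?_ hT hT1 F τ hτ
  intro y hy
  obtain ⟨l, rfl⟩ := key y hy
  ext v
  simp

end Pool.Agent.TH387.EI
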